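import Mathlib
import Pool.Agent.V11109.Cake.Main
import Pool.Agent.U750.CakePos.Mech

/-!
# Truthful cake cutting: all agents but one can always be given a positive value

Cake `[0,1]`, piecewise constant densities, pieces are finite unions of intervals, the whole cake
is allocated.  For two agents no truthful mechanism gives both agents a positive value on every
profile.  Here: for every number `m + 1` of agents and every `ε > 0` there is a truthful mechanism
that gives the first `m` agents a positive value on every profile, while the last agent always
receives a piece of length at least `1 - ε`.  So all `m + 1` agents receive a positive value on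
every profile in which the density of the last agent is positive on a set of measure more
than `ε`.

Idea: agent `i` is offered all dyadic intervals of a length which is determined by the finest
scale occurring in the reports of the other agents.  All agents except the one with the finest
report have many best intervals inside the set where their density is maximal, so that the chosen
intervals can be made disjoint.
-/

set_option autoImplicit false

open MeasureTheory Set Pool.Agent.V11109.Cake Pool.Agent.U750.CakePos

namespace Pool.Agent.Results.MP_b3d40b_lc.AllButOnePositive

/-- the piece `A` has length at least `1 - ε` and `d` is positive on a set of measure more than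
`ε`, so `A` has positive value -/
lemma pos_of_large {d : Density} {A : Set unitInterval} {ε : ℝ} (hA : MeasurableSet A)
    (h1 : 1 - ε ≤ (volume : Measure unitInterval).real A)
    (h2 : ε < (volume : Measure unitInterval).real {x | 0 < d.f x}) : 0 < value d A := by
  unfold value
  rw [setIntegral_pos_iff_support_of_nonneg_ae
    (Filter.Eventually.of_forall (fun x => d.nonneg x)) (pc_integrable d.pc).integrableOn]
  have hs : Function.support d.f = {x | 0 < d.f x} := by
    ext x
    simp only [Function.mem_support, mem_ofPred_eq]
    exact ⟨fun h => lt_of_le_of_ne (d.nonneg x) (Ne.symm h), fun h => ne_of_gt h⟩
  rw [hs]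
  have h3 := measureReal_union_add_inter (μ := (volume : Measure unitInterval))
    (s := {x | 0 < d.f x}) hA
  have h4 := vr_le_one ({x | 0 < d.f x} ∪ A)
  have h5 : 0 < (volume : Measure unitInterval).real ({x | 0 < d.f x} ∩ A) := by
    rw [vr] at h4
    linarith
  rw [measureReal_def] at h5
  exact (ENNReal.toReal_pos_iff.1 h5).1

/-- For every `m` and every `ε > 0` there is a truthful mechanism for `m + 1` agents (the whole
cake is allocated, all pieces are finite unions of intervals) such that

* on every profile each of the first `m` agents receives a positive value;
* on every profile the last agent receives a piece of length at least `1 - ε`;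
* on every profile in which the density of the last agent is positive on a set of measure more
  than `ε`, every agent receives a positive value. -/
theorem result (m : ℕ) (ε : ℝ) (hε : 0 < ε) :
    ∃ M : Mechanism (m + 1), M.Truthful ∧
      (∀ (p : Fin (m + 1) → Density) (i : Fin m),
        0 < value (p i.castSucc) (M.alloc p i.castSucc)) ∧
      (∀ p : Fin (m + 1) → Density,
        1 - ε ≤ (volume : Measure unitInterval).real (M.alloc p (Fin.last m))) ∧
      (∀ p : Fin (m + 1) → Density,
        ε < (volume : Measure unitInterval).real {x | 0 < (p (Fin.last m)).f x} →
          ∀ i, 0 < value (p i) (M.alloc p i)) := by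
  obtain ⟨e, he⟩ : ∃ e : ℕ, (m:ℝ) / 2 ^ e ≤ ε := by
    obtain ⟨e, he⟩ := exists_pow_lt_of_lt_one (y := (1/2 : ℝ)) (x := ε / (m + 1)) (by positivity)
      (by norm_num)
    refine ⟨e, ?_⟩
    have h2 : (0:ℝ) < 2 ^ e := by positivity
    rw [div_pow, one_pow, div_lt_div_iff₀ h2 (by positivity)] at he
    rw [div_le_iff₀ h2]
    linarith
  refine ⟨mech m e, mech_truthful m e, mech_pos m e, ?_, ?_⟩
  · intro p
    have := mech_vol m e p
    rw [vr] at this
    linarith
  · intro p hp i
    induction i using Fin.lastCases with
    | cast i => exact mech_pos m e p i
    | last =>
      refine pos_of_large (ε := ε) (pcset_of_finUnion ((mech m e).intervals p _)).measurableSet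
        ?_ hp
      have := mech_vol m e p
      rw [vr] at this
      linarith

end Pool.Agent.Results.MP_b3d40b_lc.AllButOnePositive
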